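import Pool.Agent.H164R3.QRealSeries

set_option autoImplicit false

open Filter Topology Metric
open scoped ENNReal PowerSeries

namespace Pool.Agent.Results.MP_b13893_an.QRealRadius

open Pool.Agent.H164R3.QReal

/-- Taylor series at `0`. -/
noncomputable def taylor (f : ℂ → ℂ) : PowerSeries ℂ :=
  PowerSeries.mk fun n => ((n.factorial : ℂ))⁻¹ * iteratedDeriv n f 0

lemma taylor_mul {f g : ℂ → ℂ} (hf : AnalyticAt ℂ f 0) (hg : AnalyticAt ℂ g 0) :
    taylor (f * g) = taylor f * taylor g := by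
  ext n
  simp only [taylor, PowerSeries.coeff_mk,
    iteratedDeriv_mul hf.contDiffAt hg.contDiffAt, Finset.mul_sum, PowerSeries.coeff_mul,
    Finset.Nat.sum_antidiagonal_eq_sum_range_succ_mk, Nat.succ_eq_add_one]
  refine Finset.sum_congr rfl fun i hi ↦ ?_
  rw [Nat.cast_choose _ (by grind)]
  field_simp [Nat.factorial_ne_zero]

lemma taylor_congr {f g : ℂ → ℂ} (h : f =ᶠ[𝓝 0] g) : taylor f = taylor g := by
  ext n
  simp only [taylor, PowerSeries.coeff_mk, h.iteratedDeriv_eq n]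

lemma taylor_sub {f g : ℂ → ℂ} (hf : AnalyticAt ℂ f 0) (hg : AnalyticAt ℂ g 0) :
    taylor (f - g) = taylor f - taylor g := by
  ext n
  simp only [taylor, PowerSeries.coeff_mk, map_sub]
  rw [iteratedDeriv_sub hf.contDiffAt hg.contDiffAt]
  ring

lemma taylor_add {f g : ℂ → ℂ} (hf : AnalyticAt ℂ f 0) (hg : AnalyticAt ℂ g 0) :
    taylor (f + g) = taylor f + taylor g := by
  ext n
  simp only [taylor, PowerSeries.coeff_mk, map_add]
  rw [iteratedDeriv_add hf.contDiffAt hg.contDiffAt]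
  ring

lemma taylor_pow (m : ℕ) : taylor (fun z => z ^ m) = PowerSeries.X ^ m := by
  ext n
  simp only [taylor, PowerSeries.coeff_mk, PowerSeries.coeff_X_pow]
  rw [iteratedDeriv_fun_pow_zero]
  split_ifs with h
  · rw [h]
    exact inv_mul_cancel₀ (by exact_mod_cast m.factorial_ne_zero)
  · simp

lemma analyticAt_pow (m : ℕ) : AnalyticAt ℂ (fun z : ℂ => z ^ m) 0 := by fun_prop

/-- geometric sums as functions -/
noncomputable def gs (n : ℕ) (z : ℂ) : ℂ := ∑ i ∈ Finset.range n, z ^ i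

lemma taylor_gs (n : ℕ) : taylor (gs n) = ∑ i ∈ Finset.range n, (PowerSeries.X : PowerSeries ℂ) ^ i := by
  induction n with
  | zero =>
    ext n
    have : gs 0 = fun _ => (0 : ℂ) := by funext z; simp [gs]
    simp [taylor, this]
  | succ n ih =>
    have h : gs (n + 1) = gs n + fun z => z ^ n := by
      funext z; simp [gs, Finset.sum_range_succ]
    rw [h, taylor_add _ (analyticAt_pow n), ih, taylor_pow, Finset.sum_range_succ]
    unfold gs; fun_prop

/-- The truncations as functions of a complex variable. -/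
noncomputable def GG : (ℕ → ℤ) → ℕ → ℂ → ℂ
  | c, 0 => gs (c 0).toNat
  | c, (N + 1) => gs (c 0).toNat - (fun z => z ^ (c 0 - 1).toNat) * (GG (fun j => c (j + 1)) N)⁻¹

noncomputable def ψ : ℝ := (√5 - 1) / 2

lemma ψ_sq : ψ ^ 2 = 1 - ψ := by
  have := Real.sq_sqrt (show (0 : ℝ) ≤ 5 by norm_num)
  rw [ψ]; nlinarith

lemma ψ_pos : 0 < ψ := by
  have : (1 : ℝ) < √5 := by rw [Real.lt_sqrt] <;> norm_num
  rw [ψ]; linarith

lemma ψ_lt_one : ψ < 1 := by
  have : √5 < (3 : ℝ) := by rw [Real.sqrt_lt] <;> norm_num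
  rw [ψ]; linarith

lemma R_eq : (3 - √5) / 2 = ψ ^ 2 := by rw [ψ_sq, ψ]; ring

/-- `v ↦ z v + 1` maps `|v| < 1 + ψ` into `|w - 1| < ψ` when `|z| < ψ ^ 2`. -/
lemma key1 {z v : ℂ} (hz : ‖z‖ < ψ ^ 2) (hv : ‖v‖ < 1 + ψ) : ‖z * v + 1 - 1‖ < ψ := by
  rw [add_sub_cancel_right, norm_mul]
  have h1 := ψ_pos
  have h2 := ψ_sq
  calc ‖z‖ * ‖v‖ ≤ ψ ^ 2 * ‖v‖ := by gcongr
    _ < ψ ^ 2 * (1 + ψ) := by
        apply mul_lt_mul_of_pos_left hv; positivity
    _ = ψ := by rw [h2]; nlinarith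

lemma key2 {w : ℂ} (hw : ‖w - 1‖ < ψ) : ‖1 - 1 / w‖ < 1 + ψ ∧ w ≠ 0 := by
  have h1 := ψ_pos
  have h2 := ψ_sq
  have h3 := ψ_lt_one
  have hw1 : 1 - ψ < ‖w‖ := by
    have : ‖(1 : ℂ)‖ ≤ ‖w‖ + ‖w - 1‖ := by
      have := norm_sub_le w (w - 1)
      simpa using this
    rw [norm_one] at this; linarith
  have hw0 : w ≠ 0 := by
    intro h; rw [h, norm_zero] at hw1; linarith
  refine ⟨?_, hw0⟩
  have : 1 - 1 / w = (w - 1) / w := by field_simp
  rw [this, norm_div, div_lt_iff₀ (by linarith)]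
  nlinarith

lemma norm_lt_of {w : ℂ} (hw : ‖w - 1‖ < ψ) : ‖w‖ < 1 + ψ := by
  have : ‖w‖ ≤ ‖w - 1‖ + ‖(1 : ℂ)‖ := by
    have := norm_add_le (w - 1) 1
    simpa using this
  rw [norm_one] at this; linarith

/-- `gs (n+1) z - z^n / w = R^n (1 - 1 / w)` with `R v = z v + 1`. -/
lemma step {z w : ℂ} (hz : ‖z‖ < ψ ^ 2) (hw : ‖w - 1‖ < ψ) :
    ∀ n : ℕ, ‖gs (n + 2) z - z ^ (n + 1) * w⁻¹ - 1‖ < ψ
  | 0 => by
      have h := key1 hz (key2 hw).1
      have : gs (0 + 2) z - z ^ (0 + 1) * w⁻¹ - 1 = z * (1 - 1 / w) + 1 - 1 := by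
        simp [gs, Finset.sum_range_succ]; ring
      rw [this]; exact h
  | (n + 1) => by
      have h := key1 hz (norm_lt_of (step hz hw n))
      have : gs (n + 1 + 2) z - z ^ (n + 1 + 1) * w⁻¹ - 1
          = z * (gs (n + 2) z - z ^ (n + 1) * w⁻¹) + 1 - 1 := by
        have h1 : gs (n + 1 + 2) z = z * gs (n + 2) z + 1 := by
          rw [gs, gs, show n + 1 + 2 = (n + 2) + 1 by ring, Finset.sum_range_succ', Finset.mul_sum]
          simp [pow_succ']
        rw [h1]; ring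
      rw [this]; exact h

lemma gs_bound {z : ℂ} (hz : ‖z‖ < ψ ^ 2) : ∀ n : ℕ, ‖gs (n + 1) z - 1‖ < ψ
  | 0 => by simpa [gs] using ψ_pos
  | (n + 1) => by
      have h := key1 hz (norm_lt_of (gs_bound hz n))
      have : gs (n + 1 + 1) z - 1 = z * gs (n + 1) z + 1 - 1 := by
        rw [gs, gs, Finset.sum_range_succ', Finset.mul_sum]
        simp [pow_succ']
      rw [this]; exact h

lemma GG_bound : ∀ (N : ℕ) {c : ℕ → ℤ}, (∀ j, 2 ≤ c j) → ∀ {z : ℂ}, ‖z‖ < ψ ^ 2 →
    ‖GG c N z - 1‖ < ψ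
  | 0, c, hc, z, hz => by
      obtain ⟨m, hm⟩ : ∃ m, (c 0).toNat = m + 1 := ⟨(c 0).toNat - 1, by have := hc 0; omega⟩
      rw [GG, hm]; exact gs_bound hz m
  | (N + 1), c, hc, z, hz => by
      have h2 := hc 0
      obtain ⟨m, hm⟩ : ∃ m, (c 0).toNat = m + 2 := ⟨(c 0).toNat - 2, by omega⟩
      have hm' : (c 0 - 1).toNat = m + 1 := by omega
      have ih := GG_bound N (c := fun j => c (j + 1)) (fun j => hc (j + 1)) hz
      have := step hz ih m
      rw [GG, hm, hm']
      simpa using this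

lemma GG_analyticAt : ∀ (N : ℕ) {c : ℕ → ℤ}, (∀ j, 2 ≤ c j) → ∀ {z : ℂ}, ‖z‖ < ψ ^ 2 →
    AnalyticAt ℂ (GG c N) z
  | 0, c, hc, z, hz => by
      rw [GG]; unfold gs; fun_prop
  | (N + 1), c, hc, z, hz => by
      have hc' : ∀ j, 2 ≤ (fun j => c (j + 1)) j := fun j => hc (j + 1)
      rw [GG]
      have h1 : AnalyticAt ℂ (gs (c 0).toNat) z := by unfold gs; fun_prop
      have h2 : AnalyticAt ℂ (fun z : ℂ => z ^ (c 0 - 1).toNat) z := by fun_prop
      have h3 := GG_analyticAt N hc' hz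
      have h4 := (key2 (GG_bound N hc' hz)).2
      exact h1.sub (h2.mul (h3.inv h4))

lemma zero_lt : ‖(0 : ℂ)‖ < ψ ^ 2 := by
  rw [norm_zero]; have := ψ_pos; positivity

lemma taylor_GG : ∀ (N : ℕ) {c : ℕ → ℤ}, (∀ j, 2 ≤ c j) → taylor (GG c N) = P c N
  | 0, c, hc => by rw [GG, taylor_gs, P]
  | (N + 1), c, hc => by
      have hc' : ∀ j, 2 ≤ (fun j => c (j + 1)) j := fun j => hc (j + 1)
      have h1 : AnalyticAt ℂ (gs (c 0).toNat) 0 := by unfold gs; fun_prop
      have h2 : AnalyticAt ℂ (fun z : ℂ => z ^ (c 0 - 1).toNat) 0 := by fun_prop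
      have h3 := GG_analyticAt N hc' zero_lt
      have h4 := (key2 (GG_bound N hc' zero_lt)).2
      have h5 := h3.inv h4
      rw [GG, taylor_sub h1 (h2.mul h5), taylor_mul h2 h5, taylor_gs, taylor_pow, P_succ]
      congr 2
      have h6 : taylor (GG (fun j => c (j + 1)) N * (GG (fun j => c (j + 1)) N)⁻¹) = 1 := by
        have : (GG (fun j => c (j + 1)) N * (GG (fun j => c (j + 1)) N)⁻¹)
            =ᶠ[𝓝 0] fun z => z ^ 0 := by
          have h7 : ∀ᶠ z in 𝓝 (0 : ℂ), ‖z‖ < ψ ^ 2 := by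
            have : Metric.ball (0 : ℂ) (ψ ^ 2) ∈ 𝓝 (0 : ℂ) :=
              Metric.ball_mem_nhds _ (by have := ψ_pos; positivity)
            filter_upwards [this] with z hz
            simpa using hz
          filter_upwards [h7] with z hz
          have := (key2 (GG_bound N hc' hz)).2
          simp [this]
        rw [taylor_congr this, taylor_pow, pow_zero]
      rw [taylor_mul h3 h5, taylor_GG N hc'] at h6
      have e1 := PowerSeries.mul_inv_cancel _ (P_ne (N := N) hc')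
      calc taylor (GG (fun j => c (j + 1)) N)⁻¹
          = (P (fun j => c (j + 1)) N * (P (fun j => c (j + 1)) N)⁻¹) *
              taylor (GG (fun j => c (j + 1)) N)⁻¹ := by rw [e1, one_mul]
        _ = (P (fun j => c (j + 1)) N)⁻¹ *
            (P (fun j => c (j + 1)) N * taylor (GG (fun j => c (j + 1)) N)⁻¹) := by ring
        _ = _ := by rw [h6, mul_one]

lemma coeff_bound {c : ℕ → ℤ} (hc : ∀ j, 2 ≤ c j) (N k : ℕ) :
    ‖PowerSeries.coeff k (P c N)‖ * (ψ ^ 2) ^ k ≤ 1 + ψ := by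
  have hψ := ψ_pos
  have h1 : ∀ r : ℝ, 0 < r → r < ψ ^ 2 → ‖PowerSeries.coeff k (P c N)‖ * r ^ k ≤ 1 + ψ := by
    intro r hr hr'
    have hb : ∀ z ∈ closedBall (0 : ℂ) r, ‖z‖ < ψ ^ 2 := by
      intro z hz; rw [mem_closedBall, dist_zero_right] at hz; linarith
    have hd : DiffContOnCl ℂ (GG c N) (ball 0 r) := by
      apply DifferentiableOn.diffContOnCl_ball (U := closedBall 0 r)
      · intro z hz
        exact (GG_analyticAt N hc (hb z hz)).differentiableAt.differentiableWithinAt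
      · exact subset_rfl
    have hC := Complex.norm_iteratedDeriv_le_of_forall_mem_sphere_norm_le k hr hd
      (C := 1 + ψ) (fun z hz => (norm_lt_of (GG_bound N hc (hb z (sphere_subset_closedBall hz)))).le)
    rw [← taylor_GG N hc, taylor, PowerSeries.coeff_mk, norm_mul, norm_inv, Complex.norm_natCast]
    have hk : (0 : ℝ) < (k.factorial : ℝ) := by exact_mod_cast k.factorial_pos
    calc (k.factorial : ℝ)⁻¹ * ‖iteratedDeriv k (GG c N) 0‖ * r ^ k
        ≤ (k.factorial : ℝ)⁻¹ * (k.factorial * (1 + ψ) / r ^ k) * r ^ k := by gcongr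
      _ = 1 + ψ := by field_simp
  have h2 : Tendsto (fun r : ℝ => ‖PowerSeries.coeff k (P c N)‖ * r ^ k) (𝓝[<] (ψ ^ 2))
      (𝓝 (‖PowerSeries.coeff k (P c N)‖ * (ψ ^ 2) ^ k)) := by
    apply Tendsto.mono_left _ nhdsWithin_le_nhds
    exact (Continuous.tendsto (by fun_prop) _)
  refine le_of_tendsto h2 ?_
  have h3 : ∀ᶠ r in 𝓝[<] (ψ ^ 2), 0 < r := by
    apply eventually_nhdsWithin_of_eventually_nhds
    exact lt_mem_nhds (by positivity)
  filter_upwards [h3, self_mem_nhdsWithin] with r hr hr'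
  exact h1 r hr hr'

lemma coeff_bound_F {F : ℝ → LaurentSeries ℂ} (hF : IsQDeformation F) :
    ∀ (m : ℕ) (x : ℝ), 1 ≤ x + m → ∀ k : ℕ, ‖(F x).coeff (k : ℤ)‖ * (ψ ^ 2) ^ (k + m) ≤ 1 + ψ
  | 0, x, hx, k => by
      have hx' : 1 ≤ x := by simpa using hx
      have hlim := hF.lim x (dig x) (isExpansion_dig hx')
      obtain ⟨N, hN⟩ := (hlim (k : ℤ)).exists
      rw [← hN k le_rfl, qncf_eq N (two_le_dig hx'), coeff_coe_nat, add_zero]
      exact coeff_bound (two_le_dig hx') N k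
  | (m + 1), x, hx, k => by
      have hs := hF.shift (x + 1)
      rw [add_sub_cancel_right] at hs
      have h1 : (F x).coeff (k : ℤ) = (F (x + 1)).coeff ((k + 1 : ℕ) : ℤ) := by
        rw [hs, coeff_qv_inv_mul, HahnSeries.coeff_sub]
        have : (1 : LaurentSeries ℂ).coeff ((k : ℤ) + 1) = 0 := by
          rw [HahnSeries.coeff_one, if_neg (by omega)]
        rw [this, sub_zero]; push_cast; rfl
      have h2 := coeff_bound_F hF m (x + 1) (by push_cast at hx; linarith) (k + 1)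
      rw [h1]
      convert h2 using 3
      ring

/-- There is exactly one `q`-deformation `x ↦ [x]_q` of the real numbers, and for every real `x`
the radius of convergence of `[x]_q` is at least `(3 - √5) / 2`. -/
theorem result :
    (∃! F : ℝ → LaurentSeries ℂ, IsQDeformation F) ∧
      ∀ F : ℝ → LaurentSeries ℂ, IsQDeformation F →
        ∀ x : ℝ, ENNReal.ofReal ((3 - √5) / 2) ≤ radius (F x) := by
  refine ⟨⟨F0, isQDeformation_F0, ?_⟩, ?_⟩
  · intro F hF
    have key : ∀ (m : ℕ) (x : ℝ), 1 ≤ x + m → F x = F0 x := by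
      intro m
      induction m with
      | zero =>
        intro x hx
        have hx' : 1 ≤ x := by simpa using hx
        exact (hF.lim x (dig x) (isExpansion_dig hx')).unique
          (isQDeformation_F0.lim x (dig x) (isExpansion_dig hx'))
      | succ m ih =>
        intro x hx
        have h1 := hF.shift (x + 1)
        have h2 := isQDeformation_F0.shift (x + 1)
        rw [add_sub_cancel_right] at h1 h2
        rw [h1, h2, ih (x + 1) (by push_cast at hx; linarith)]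
    funext x
    obtain ⟨m, hm⟩ := exists_nat_ge (1 - x)
    exact key m x (by linarith)
  · intro F hF x
    obtain ⟨m, hm⟩ := exists_nat_ge (1 - x)
    have hψ := ψ_pos
    rw [R_eq, radius]
    have h := coeff_bound_F hF m x (by linarith)
    have : ENNReal.ofReal (ψ ^ 2) = ((Real.toNNReal (ψ ^ 2) : NNReal) : ℝ≥0∞) := rfl
    rw [this]
    refine FormalMultilinearSeries.le_radius_of_bound _ ((1 + ψ) / (ψ ^ 2) ^ m) fun n => ?_
    rw [Real.coe_toNNReal _ (by positivity), FormalMultilinearSeries.ofScalars_norm]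
    rw [le_div_iff₀ (by positivity), mul_assoc, ← pow_add]
    exact h n

end Pool.Agent.Results.MP_b13893_an.QRealRadius
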